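import Mathlib

namespace Pool.Agent.Results.MP_5ead0a_co.TwentyEight

/-- `D` is a dominating set. -/
def Dom {V : Type} (G : SimpleGraph V) (D : Finset V) : Prop :=
  ∀ v, v ∉ D → ∃ u ∈ D, G.Adj v u

/-- The domination number. -/
noncomputable def gamma {V : Type} (G : SimpleGraph V) : ℕ :=
  sInf {k | ∃ D : Finset V, D.card = k ∧ Dom G D}

/-- The independent domination number. -/
noncomputable def indDom {V : Type} (G : SimpleGraph V) : ℕ :=
  sInf {k | ∃ D : Finset V, D.card = k ∧ Dom G D ∧ ∀ u ∈ D, ∀ v ∈ D, ¬ G.Adj u v}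

/-- `G` is 3-critical. -/
def Critical3 {V : Type} (G : SimpleGraph V) : Prop :=
  gamma G = 3 ∧ ∀ u v, u ≠ v → ¬ G.Adj u v → gamma (G ⊔ SimpleGraph.edge u v) < 3

def M : Fin 28 → ℕ := ![266321676, 264208012, 259980739, 251526019, 234616704, 200798080, 133160836, 266305662, 264192125, 259966075, 251513463, 234615919, 200796255, 133158975, 265076606, 262700797, 258751995, 249576439, 232880111, 199356383, 132128703, 136298366, 169836285, 2031099, 203291639, 6027247, 18345951, 24108991]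

def A (u v : Fin 28) : Bool := (M u).testBit v

theorem A_symm : ∀ u v, A u v = A v u := by decide +kernel

def G : SimpleGraph (Fin 28) where
  Adj u v := A u v = true
  symm := ⟨fun u v h => by rwa [A_symm v u]⟩
  loopless := ⟨by decide +kernel⟩

instance : DecidableRel G.Adj := fun u v => inferInstanceAs (Decidable (A u v = true))

theorem small (D : Finset (Fin 28)) (hD : Dom G D) (h : D.card ≤ 3) :
    ∃ a b c, D = {a, b, c} := by
  have h0 : D.Nonempty := by
    by_contra h0
    rw [Finset.not_nonempty_iff_eq_empty] at h0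
    subst h0
    simpa using hD 0
  have := Finset.card_pos.mpr h0
  obtain h | h | h : D.card = 1 ∨ D.card = 2 ∨ D.card = 3 := by omega
  · obtain ⟨a, rfl⟩ := Finset.card_eq_one.mp h
    exact ⟨a, a, a, by simp⟩
  · obtain ⟨a, b, _, rfl⟩ := Finset.card_eq_two.mp h
    exact ⟨a, b, b, by simp⟩
  · obtain ⟨a, b, c, _, _, _, rfl⟩ := Finset.card_eq_three.mp h
    exact ⟨a, b, c, rfl⟩

theorem two : ∀ a b : Fin 28, ∃ w, w ≠ a ∧ w ≠ b ∧ A w a = false ∧ A w b = false := by
  decide +kernel

theorem three : ∀ a b : Fin 28, A a b = false → ∀ c, A a c = false → A b c = false →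
    ∃ w, A w a = false ∧ A w b = false ∧ A w c = false ∧ w ≠ a ∧ w ≠ b ∧ w ≠ c := by
  decide +kernel

theorem crit : ∀ u v : Fin 28, u ≠ v → A u v = false → ∃ x,
    (∀ w, w = u ∨ w = x ∨ w = v ∨ A w u = true ∨ A w x = true) ∨
    (∀ w, w = u ∨ w = x ∨ w = v ∨ A w v = true ∨ A w x = true) := by
  decide +kernel

theorem gamma_eq : gamma G = 3 := by
  have h3 : 3 ∈ {k | ∃ D : Finset (Fin 28), D.card = k ∧ Dom G D} :=
    ⟨{0, 1, 7}, by decide, by unfold Dom; decide +kernel⟩
  refine le_antisymm (Nat.sInf_le h3) (le_csInf ⟨3, h3⟩ ?_)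
  rintro _ ⟨D, rfl, hD⟩
  by_contra h
  obtain ⟨a, b, hab⟩ : ∃ a b, D ⊆ {a, b} := by
    obtain h | h | h : D.card = 0 ∨ D.card = 1 ∨ D.card = 2 := by omega
    · exact ⟨0, 0, by simp [Finset.card_eq_zero.mp h]⟩
    · obtain ⟨a, rfl⟩ := Finset.card_eq_one.mp h
      exact ⟨a, a, by simp⟩
    · obtain ⟨a, b, _, rfl⟩ := Finset.card_eq_two.mp h
      exact ⟨a, b, le_rfl⟩
  obtain ⟨w, h1, h2, h3, h4⟩ := two a b
  obtain ⟨u, hu, hadj⟩ := hD w (fun hw => by have := hab hw; simp [h1, h2] at this)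
  have := hab hu
  simp only [Finset.mem_insert, Finset.mem_singleton] at this
  have hadj' : A w u = true := hadj
  rcases this with rfl | rfl <;> simp_all

theorem ind_ge : 4 ≤ indDom G := by
  refine le_csInf ⟨4, {0, 7, 14, 21}, by decide, by unfold Dom; decide +kernel,
    by decide +kernel⟩ ?_
  rintro _ ⟨D, rfl, hD, hI⟩
  by_contra h
  obtain ⟨a, b, c, rfl⟩ := small D hD (by omega)
  have e : ∀ u v, ¬ G.Adj u v → A u v = false := fun u v h => by simpa [G] using h
  obtain ⟨w, h1, h2, h3, h4, h5, h6⟩ := three a b (e _ _ (hI a (by simp) b (by simp))) c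
    (e _ _ (hI a (by simp) c (by simp))) (e _ _ (hI b (by simp) c (by simp)))
  obtain ⟨u, hu, hadj⟩ := hD w (by simp [h4, h5, h6])
  simp only [Finset.mem_insert, Finset.mem_singleton] at hu
  have hadj' : A w u = true := hadj
  rcases hu with rfl | rfl | rfl <;> simp_all

theorem result : ∃ (n : ℕ) (G : SimpleGraph (Fin n)), n < 56 ∧ Critical3 G ∧
    gamma G < indDom G := by
  refine ⟨28, G, by norm_num, ⟨gamma_eq, fun u v huv hadj => ?_⟩,
    by have := ind_ge; rw [gamma_eq]; omega⟩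
  obtain ⟨x, hx⟩ := crit u v huv (by simpa [G] using hadj)
  have key : ∀ y, y = u ∨ y = v →
      (∀ w, w = u ∨ w = x ∨ w = v ∨ A w y = true ∨ A w x = true) →
      gamma (G ⊔ SimpleGraph.edge u v) < 3 := by
    intro y hy h
    refine lt_of_le_of_lt (Nat.sInf_le ⟨{y, x}, rfl, fun w hw => ?_⟩)
      (lt_of_le_of_lt Finset.card_le_two (by norm_num))
    simp only [Finset.mem_insert, Finset.mem_singleton, not_or] at hw
    rcases h w with h | h | h | h | h
    · refine ⟨y, by simp, Or.inr ?_⟩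
      rw [SimpleGraph.edge_adj]
      rcases hy with hy | hy
      · exact absurd (h.trans hy.symm) hw.1
      · exact ⟨Or.inl ⟨h, hy⟩, hw.1⟩
    · exact absurd h hw.2
    · refine ⟨y, by simp, Or.inr ?_⟩
      rw [SimpleGraph.edge_adj]
      rcases hy with hy | hy
      · exact ⟨Or.inr ⟨h, hy⟩, hw.1⟩
      · exact absurd (h.trans hy.symm) hw.1
    · exact ⟨y, by simp, Or.inl h⟩
    · exact ⟨x, by simp, Or.inl h⟩
  rcases hx with h | h
  · exact key u (Or.inl rfl) h
  · exact key v (Or.inr rfl) h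

end Pool.Agent.Results.MP_5ead0a_co.TwentyEight
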